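import Pool.Agent.Q109.FV.All

/-!
MP_20afc1_co, Q1: the expected proportion of vertices of a uniformly random labelled tree on `n`
vertices that are fixed by all automorphisms converges, and the limit is an explicit series over
finite rooted trees, with value between 0.81 and 0.86.
-/

open SimpleGraph Filter Topology

namespace Pool.Agent.Results.MP_20afc1_co.FixedVertices

open Classical in
/-- The labelled trees on the vertex set `Fin n`. -/
noncomputable def trees (n : ℕ) : Finset (SimpleGraph (Fin n)) :=
  Finset.univ.filter fun T => T.IsTree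

/-- `X_n(T)`: the proportion of the vertices of `T` fixed by every automorphism of `T`
(`T ≃g T` is the type of all bijections of the vertex set preserving adjacency in both
directions). -/
noncomputable def X (n : ℕ) (T : SimpleGraph (Fin n)) : ℝ :=
  (Nat.card {v : Fin n // ∀ σ : T ≃g T, σ v = v} : ℝ) / n

/-- `E(X_n)`, the average of `X_n(T)` over all labelled trees on `Fin n`. -/
noncomputable def EX (n : ℕ) : ℝ := (∑ T ∈ trees n, X n T) / (trees n).card

/-- The number of automorphisms of the graph `t` fixing the vertex `r`. -/
noncomputable def aut {s : ℕ} (t : SimpleGraph (Fin s)) (r : Fin s) : ℕ :=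
  Nat.card {σ : t ≃g t // σ r = r}

/-- The number of vertices fixed by all automorphisms of `t` that fix `r`. -/
noncomputable def fix {s : ℕ} (t : SimpleGraph (Fin s)) (r : Fin s) : ℕ :=
  Nat.card {v : Fin s // ∀ σ : t ≃g t, σ r = r → σ v = v}

/-- The contribution of the rooted trees with `s` vertices:
`(e^(-s) / s!) ∑_(t,r) fix t r (1 - exp (-e^(-s) / aut t r))`, the sum over all rooted labelled
trees on `Fin s`. -/
noncomputable def term (s : ℕ) : ℝ :=
  Real.exp (-(s : ℝ)) / s.factorial * ∑ t ∈ trees s, ∑ r : Fin s,
    (fix t r : ℝ) * (1 - Real.exp (-(Real.exp (-(s : ℝ)) / aut t r)))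

theorem result : Summable term ∧ Tendsto EX atTop (𝓝 (1 - ∑' s, term s)) ∧
    0.81 < 1 - ∑' s, term s ∧ 1 - ∑' s, term s < 0.86 :=
  Q109.FV.all

end Pool.Agent.Results.MP_20afc1_co.FixedVertices
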